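import Pool.Agent.H55.Cos.Stmts

/-!
COS modules SIG and COD.
-/

set_option warn.classDefReducibility false

namespace Pool.Agent.H55.Cos

open Set Filter Topology

theorem sig_second : @SecondCountableTopology XX sig := by
  let t : Option Bool → TopologicalSpace XX := fun o => match o with
    | none => (inferInstance : TopologicalSpace XX)
    | some false => TopologicalSpace.induced g1 inferInstance
    | some true => TopologicalSpace.induced g2 inferInstance
  have h : sig = ⨅ o, t o := by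
    rw [iInf_option]
    have : (⨅ b : Bool, t (some b)) = t (some true) ⊓ t (some false) := iInf_bool_eq
    rw [this]
    show (inferInstance : TopologicalSpace XX) ⊓ (_ ⊓ _) = _
    rw [inf_comm (TopologicalSpace.induced g1 inferInstance)]
  rw [h]
  refine TopologicalSpace.secondCountableTopology_iInf (fun o => ?_)
  match o with
  | none => exact (inferInstance : SecondCountableTopology XX)
  | some false => exact TopologicalSpace.secondCountableTopology_induced _ _ _
  | some true => exact TopologicalSpace.secondCountableTopology_induced _ _ _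

theorem sigB_exists : ∃ B : ℕ → Set XX, (∀ n, @IsOpen XX sig (B n)) ∧
      ∀ U : Set XX, @IsOpen XX sig U → ∀ z ∈ U, ∃ n, z ∈ B n ∧ B n ⊆ U := by
  obtain ⟨b, hc, _, hb⟩ := @TopologicalSpace.exists_countable_basis XX sig sig_second
  have hc' : (insert ∅ b).Countable := hc.insert ∅
  obtain ⟨f, hf⟩ := hc'.exists_eq_range ⟨∅, mem_insert _ _⟩
  refine ⟨f, fun n => ?_, fun U hU z hz => ?_⟩
  · have h1 : f n ∈ insert ∅ b := by rw [hf]; exact mem_range_self n
    rcases h1 with h1 | h1
    · rw [h1]; exact @isOpen_empty XX sig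
    · exact @TopologicalSpace.IsTopologicalBasis.isOpen XX sig _ _ hb h1
  · obtain ⟨v, hv, hzv, hvU⟩ := @TopologicalSpace.IsTopologicalBasis.exists_subset_of_mem_open XX sig b hb z U hz hU
    have h1 : v ∈ insert ∅ b := mem_insert_of_mem _ hv
    rw [hf] at h1
    obtain ⟨n, rfl⟩ := h1
    exact ⟨n, hzv, hvU⟩

theorem cos_sig : SIGStmt := by
  have h : sigB = sigB_exists.choose := by
    unfold sigB
    rw [dif_pos sigB_exists]
  unfold SIGStmt
  rw [h]
  exact sigB_exists.choose_spec

theorem cos_cod (h : SIGStmt) (h6 : CAN6Stmt) : CODStmt := by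
  classical
  obtain ⟨hs1, hs2⟩ := h
  have key : ∀ U : Set XX, (∀ k, ∃ O, @IsOpen XX sig O ∧ U ∩ FF k = O ∩ FF k) →
      (⋃ (k : ℕ) (i : ℕ) (_ : sigB i ∩ FF k ⊆ U), sigB i ∩ FF k) = U ∩ Mfin := by
    intro U hU
    apply Subset.antisymm
    · intro z hz
      simp only [mem_iUnion, exists_prop] at hz
      obtain ⟨k, i, h1, h2⟩ := hz
      refine ⟨h1 h2, ?_⟩
      intro hinf
      exact h2.2 ((h6.2.1 _).mp hinf _)
    · rintro z ⟨hzU, hzM⟩
      have h1 : ¬ ∀ k, lv z ∈ GE k := fun hh => hzM ((h6.2.1 _).mpr hh)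
      push Not at h1
      obtain ⟨k, hk⟩ := h1
      have hk' : lv z ∉ GE (k + 1) := fun hh => hk (h6.2.2 k hh)
      obtain ⟨O, hO, hUO⟩ := hU k
      have h2 : z ∈ O ∩ FF k := by rw [← hUO]; exact ⟨hzU, hk'⟩
      obtain ⟨i, hi1, hi2⟩ := hs2 O hO z h2.1
      simp only [mem_iUnion, exists_prop]
      refine ⟨k, i, ?_, hi1, hk'⟩
      intro y hy
      have : y ∈ O ∩ FF k := ⟨hi2 hy.1, hy.2⟩
      rw [← hUO] at this
      exact this.1
  intro U V hU hV
  let c : Cant := fun m =>
    if m % 2 = 0 then decide (sigB (Nat.unpair (m / 2)).2 ∩ FF (Nat.unpair (m / 2)).1 ⊆ U)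
    else decide (sigB (Nat.unpair (m / 2)).2 ∩ FF (Nat.unpair (m / 2)).1 ⊆ V)
  have hc1 : ∀ k i, (c (2 * Nat.pair k i) = true) = (sigB i ∩ FF k ⊆ U) := by
    intro k i
    have h1 : (2 * Nat.pair k i) % 2 = 0 := by omega
    have h2 : (2 * Nat.pair k i) / 2 = Nat.pair k i := by omega
    simp only [c]
    rw [if_pos h1, h2, Nat.unpair_pair]
    simp
  have hc2 : ∀ k i, (c (2 * Nat.pair k i + 1) = true) = (sigB i ∩ FF k ⊆ V) := by
    intro k i
    have h1 : ¬ (2 * Nat.pair k i + 1) % 2 = 0 := by omega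
    have h2 : (2 * Nat.pair k i + 1) / 2 = Nat.pair k i := by omega
    simp only [c]
    rw [if_neg h1, h2, Nat.unpair_pair]
    simp
  refine ⟨c, ?_, ?_⟩
  · rw [← key U hU]
    unfold Ucode
    simp only [hc1]
  · rw [← key V hV]
    unfold Vcode
    simp only [hc2]

end Pool.Agent.H55.Cos
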